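import Mathlib
import Pool.Agent.V11117.Thr

/-!
# The maximum Laplacian energy of connected threshold graphs with `m` edges
-/

namespace Pool.Agent.Results.MP_2d204e_co.ThresholdMax

open Finset Matrix Polynomial Pool.Agent.V11117.Thr

open Classical in
/-- The Laplacian matrix `D - A` of a graph on `Fin n`. -/
noncomputable def lap {n : ℕ} (G : SimpleGraph (Fin n)) : Matrix (Fin n) (Fin n) ℝ :=
  G.lapMatrix ℝ

/-- The Laplacian matrix is real symmetric. -/
lemma lap_herm {n : ℕ} (G : SimpleGraph (Fin n)) : (lap G).IsHermitian := by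
  classical
  rw [Matrix.IsHermitian, Matrix.conjTranspose_eq_transpose_of_trivial]
  exact SimpleGraph.isSymm_lapMatrix (R := ℝ) G

/-- The Laplacian energy: the sum of `|λ - 2m/n|` over the Laplacian eigenvalues (with
multiplicity), where `m` is the number of edges and `n` the number of vertices. -/
noncomputable def LE {n : ℕ} (G : SimpleGraph (Fin n)) : ℝ :=
  ∑ i, |(lap_herm G).eigenvalues i - 2 * (G.edgeSet.ncard : ℝ) / n|

/-- `G` is a threshold graph: its vertices can be ordered as `v 0, v 1, …` so that each vertex is,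
when it is added, either isolated (`b j = false`) or adjacent to all vertices present so far
(`b j = true`). -/
def IsThreshold {n : ℕ} (G : SimpleGraph (Fin n)) : Prop :=
  ∃ (v : Equiv.Perm (Fin n)) (b : Fin n → Bool),
    ∀ i j : Fin n, i < j → (G.Adj (v i) (v j) ↔ b j = true)

/-- The values of the Laplacian energy on connected threshold graphs with `m` edges. -/
def values (m : ℕ) : Set ℝ :=
  {x | ∃ (n : ℕ) (G : SimpleGraph (Fin n)), G.Connected ∧ IsThreshold G ∧
    G.edgeSet.ncard = m ∧ x = LE G}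

/-- `Lthr m`: the maximum of the Laplacian energy over connected threshold graphs with `m`
edges. -/
noncomputable def Lthr (m : ℕ) : ℝ := sSup (values m)

/-- half the Laplacian energy of the pineapple with `m` edges and clique number `k + 1` -/
noncomputable def P (m k : ℕ) : ℝ :=
  (m : ℝ) + k * (k + 1) / 2 - 2 * m * k / (m + 1 - k * (k - 1) / 2)

lemma caseB (n0 d x m c : ℝ) (hn0 : 2 ≤ n0) (hx : 0 ≤ x) (hxd : x ≤ d)
    (hc : n0 ^ 2 ≤ c) (hm : 2 * m - (n0 + d) = d ^ 2 + n0 - 2) :
    0 ≤ (n0 + d - (n0 + x)) * (c - (n0 + x) * (n0 + d)) + (n0 + x) * (2 * m - (n0 + d)) := by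
  rw [hm]
  have h1 : 0 ≤ (d - x) * (c - n0 ^ 2) := mul_nonneg (by linarith) (by linarith)
  have h2 : 0 ≤ n0 * x ^ 2 := by positivity
  have h3 : 0 ≤ x ^ 2 * d := mul_nonneg (by positivity) (by linarith)
  have h4 : 0 ≤ n0 * (n0 - 2) := mul_nonneg (by linarith) (by linarith)
  have h5 : 0 ≤ x * (n0 - 2) := mul_nonneg hx (by linarith)
  nlinarith

lemma main_ineq (n m s : ℕ) (V : ℝ) (hs : 1 ≤ s) (hn : s + 1 ≤ n) (hm : n ≤ m + 1)
    (h1 : V ≤ m + s * (s + 1) / 2 - 2 * m * s / n)
    (h2 : V ≤ 2 * m + 1 + s - n - 2 * m * s / n) :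
    ∃ k, 1 ≤ k ∧ k * (k + 1) ≤ 2 * m ∧ V ≤ P m k := by
  have hnpos : (0 : ℝ) < n := by
    have : 0 < n := by omega
    exact_mod_cast this
  by_cases hc : 2 * n + s * (s - 1) ≤ 2 * (m + 1)
  · -- case (i)
    refine ⟨s, hs, ?_, ?_⟩
    · obtain ⟨t, rfl⟩ : ∃ t, s = t + 1 := ⟨s - 1, by omega⟩
      simp only [Nat.add_sub_cancel] at hc
      nlinarith
    · refine h1.trans ?_
      unfold P
      have hcR : 2 * (n : ℝ) + s * (s - 1) ≤ 2 * (m + 1) := by
        have : ((2 * n + s * (s - 1) : ℕ) : ℝ) ≤ ((2 * (m + 1) : ℕ) : ℝ) := by exact_mod_cast hc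
        push_cast [Nat.cast_sub hs] at this
        exact this
      have h3 : (n : ℝ) ≤ m + 1 - s * (s - 1) / 2 := by linarith
      have h4 : 2 * (m : ℝ) * s / (m + 1 - s * (s - 1) / 2) ≤ 2 * m * s / n := by
        apply div_le_div_of_nonneg_left (by positivity) hnpos h3
      linarith
  · -- case (ii)
    have hex : ∃ t, 1 ≤ t ∧ 2 * (m + 1) ≤ 2 * n + t * (t - 1) := ⟨s, hs, by omega⟩
    classical
    set t := Nat.find hex with ht
    have ht1 := Nat.find_spec hex
    rw [← ht] at ht1
    have hts : t ≤ s := Nat.find_min' hex ⟨hs, by omega⟩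
    have hm2 : (n : ℝ) ≤ 2 * m := by
      have : n ≤ 2 * m := by omega
      exact_mod_cast this
    have h3 : V ≤ 2 * m + 1 + t - n - 2 * m * t / n := by
      refine h2.trans ?_
      have h4 : (s : ℝ) - t ≤ 2 * m * s / n - 2 * m * t / n := by
        rw [← sub_div, ← mul_sub, le_div_iff₀ hnpos]
        have : (0 : ℝ) ≤ (s : ℝ) - t := by
          have : (t : ℝ) ≤ s := by exact_mod_cast hts
          linarith
        nlinarith
      linarith
    rcases Nat.lt_or_ge t 2 with ht2 | ht2
    · have ht3 : t = 1 := by omega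
      have hnm : n = m + 1 := by
        rw [ht3] at ht1
        omega
      refine ⟨1, le_rfl, by omega, ?_⟩
      rw [ht3, hnm] at h3
      unfold P
      push_cast at h3 ⊢
      ring_nf at h3 ⊢
      linarith
    · -- t ≥ 2
      have hmin : ¬ (1 ≤ t - 1 ∧ 2 * (m + 1) ≤ 2 * n + (t - 1) * (t - 1 - 1)) :=
        Nat.find_min hex (by omega)
      obtain ⟨d, hd⟩ : ∃ d, t = d + 1 := ⟨t - 1, by omega⟩
      have hd1 : 1 ≤ d := by omega
      rw [hd] at hmin ht1 h3 hts
      simp only [Nat.add_sub_cancel] at hmin ht1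
      have hlt : 2 * n + d * (d - 1) < 2 * (m + 1) := by
        by_contra hcon
        exact hmin ⟨hd1, by omega⟩
      have hltR : 2 * (n : ℝ) + d * (d - 1) < 2 * (m + 1) := by
        have : ((2 * n + d * (d - 1) : ℕ) : ℝ) < ((2 * (m + 1) : ℕ) : ℝ) := by exact_mod_cast hlt
        push_cast [Nat.cast_sub hd1] at this
        exact this
      have hgeR : 2 * ((m : ℝ) + 1) ≤ 2 * n + (d + 1) * d := by
        exact_mod_cast ht1.2
      -- n1 = m + 1 - d (d-1)/2, n0 = n1 - d
      set n1 : ℝ := m + 1 - d * (d - 1) / 2 with hn1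
      set n0 : ℝ := m + 1 - (d + 1) * d / 2 with hn0
      have h01 : n1 = n0 + d := by rw [hn1, hn0]; ring
      have hnn1 : (n : ℝ) < n1 := by rw [hn1]; linarith
      have hnn0 : n0 ≤ n := by rw [hn0]; linarith
      have hdR : (1 : ℝ) ≤ d := by exact_mod_cast hd1
      have hnd : (d : ℝ) + 2 ≤ n := by
        have : d + 2 ≤ n := by omega
        exact_mod_cast this
      push_cast at h3
      by_cases hA : 0 < n0 ∧ 2 * m * ((d : ℝ) + 1) ≤ n0 ^ 2
      · -- sub-case A
        obtain ⟨hA0, hA1⟩ := hA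
        have hm0 : (m : ℝ) = n0 - 1 + (d + 1) * d / 2 := by rw [hn0]; ring
        refine ⟨d + 1, by omega, ?_, ?_⟩
        · have h5 : (d : ℝ) + 1 < n0 := by
            by_contra hcon
            push Not at hcon
            have : n0 ^ 2 < 2 * m * ((d : ℝ) + 1) := by
              rw [hm0]
              nlinarith
            linarith
          have h6 : ((d : ℝ) + 1) * (d + 1 + 1) < 2 * m + 1 := by
            rw [hm0]; nlinarith
          have h7 : (((d + 1) * (d + 1 + 1) : ℕ) : ℝ) < ((2 * m + 1 : ℕ) : ℝ) := by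
            push_cast
            exact h6
          have h8 : (d + 1) * (d + 1 + 1) < 2 * m + 1 := by exact_mod_cast h7
          omega
        · refine h3.trans ?_
          unfold P
          push_cast
          have e1 : (m : ℝ) + 1 - (d + 1) * (d + 1 - 1) / 2 = n0 := by rw [hn0]; ring
          rw [e1]
          have h5 : (n : ℝ) + 2 * m * (d + 1) / n ≥ n0 + 2 * m * (d + 1) / n0 := by
            have h6 : (n : ℝ) + 2 * m * (d + 1) / n - (n0 + 2 * m * (d + 1) / n0)
                = (n - n0) * (n * n0 - 2 * m * (d + 1)) / (n * n0) := by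
              field_simp
              ring
            have h7 : 0 ≤ (n - n0) * (n * n0 - 2 * m * (d + 1)) / (n * n0) := by
              apply div_nonneg _ (by positivity)
              apply mul_nonneg (by linarith)
              nlinarith
            linarith
          have h8 : (m : ℝ) + (d + 1) * (d + 1 + 1) / 2 = 2 * m + 1 + (d + 1) - n0 := by
            rw [hn0]; ring
          rw [h8]
          linarith
      · -- sub-case B
        refine ⟨d, hd1, ?_, ?_⟩
        · have h5 : ((d * (d + 1) : ℕ) : ℝ) ≤ ((2 * m : ℕ) : ℝ) := by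
            push_cast
            nlinarith
          exact_mod_cast h5
        · refine h3.trans ?_
          unfold P
          rw [← hn1]
          have hn1pos : 0 < n1 := hnpos.trans hnn1
          have h2m : n1 ≤ 2 * m := by
            rw [hn1]
            have : (1 : ℝ) ≤ m := by
              have : 1 ≤ m := by omega
              exact_mod_cast this
            nlinarith
          have hE : 0 ≤ (n1 - n) * (2 * m * (d + 1) - n * n1) + n * (2 * m - n1) := by
            by_cases hB : (n : ℝ) * n1 ≤ 2 * m * (d + 1)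
            · have := mul_nonneg (sub_nonneg.mpr hnn1.le) (sub_nonneg.mpr hB)
              have := mul_nonneg hnpos.le (sub_nonneg.mpr h2m)
              linarith
            · push Not at hB
              by_cases hn02 : 2 ≤ n0
              · have hc : n0 ^ 2 ≤ 2 * m * ((d : ℝ) + 1) := by
                  by_contra hcon
                  push Not at hcon
                  exact hA ⟨by linarith, hcon.le⟩
                have := caseB n0 d (n - n0) m (2 * m * (d + 1)) hn02 (by linarith)
                  (by linarith) hc (by rw [hn0]; ring)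
                rw [h01]
                have e : n0 + (n - n0) = (n : ℝ) := by ring
                rw [e] at this
                exact this
              · exfalso
                push Not at hn02
                have h5 : n1 < d + 2 := by linarith
                linarith
          have h6 : (n : ℝ) + 2 * m * (d + 1) / n - (1 + n1 + (2 * m * d) / n1)
              = ((n1 - n) * (2 * m * (d + 1) - n * n1) + n * (2 * m - n1)) / (n * n1) := by
            field_simp
            ring
          have h7 : 0 ≤ (n : ℝ) + 2 * m * (d + 1) / n - (1 + n1 + (2 * m * d) / n1) := by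
            rw [h6]
            exact div_nonneg hE (by positivity)
          have h8 : (m : ℝ) + d * (d + 1) / 2 = 2 * m + 1 + d - n1 := by
            rw [hn1]; ring
          rw [h8]
          linarith


/-! ### Spectrum of a threshold graph -/

lemma lap_eq {n : ℕ} (G : SimpleGraph (Fin n)) (v : Equiv.Perm (Fin n)) (b : ℕ → Bool)
    (h : ∀ i j : Fin n, i < j → (G.Adj (v i) (v j) ↔ b j = true)) :
    (lap G).submatrix v v = lapF b n := by
  classical
  have hadj : ∀ i j : Fin n, (G.Adj (v i) (v j) ↔ (i : ℕ) ≠ j ∧ b (max (i : ℕ) j) = true) := by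
    intro i j
    rcases lt_trichotomy i j with hij | hij | hij
    · rw [h i j hij, max_eq_right (by exact_mod_cast hij.le)]
      have : (i : ℕ) ≠ j := by
        have : (i : ℕ) < j := by exact_mod_cast hij
        omega
      simp [this]
    · subst hij
      simp
    · rw [G.adj_comm, h j i hij, max_eq_left (by exact_mod_cast hij.le)]
      have : (i : ℕ) ≠ j := by
        have : (j : ℕ) < i := by exact_mod_cast hij
        omega
      simp [this]
  have hA : ∀ i j : Fin n, (if G.Adj (v i) (v j) then (1 : ℝ) else 0) = adjF b i j := by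
    intro i j
    unfold adjF
    by_cases h1 : (i : ℕ) ≠ j ∧ b (max (i : ℕ) j) = true
    · rw [if_pos h1, if_pos ((hadj i j).mpr h1)]
    · rw [if_neg h1, if_neg (fun h2 => h1 ((hadj i j).mp h2))]
  ext i j
  unfold lap lapF SimpleGraph.lapMatrix SimpleGraph.degMatrix
  simp only [Matrix.submatrix_apply, Matrix.sub_apply, Matrix.diagonal_apply,
    SimpleGraph.adjMatrix_apply, Matrix.of_apply, hA]
  congr 1
  by_cases hij : i = j
  · subst hij
    simp only [if_true]
    rw [SimpleGraph.degree_eq_sum_if_adj]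
    rw [← Equiv.sum_comp v]
    exact Finset.sum_congr rfl fun k _ => hA i k
  · rw [if_neg hij, if_neg (fun h => hij (v.injective h))]

lemma charpoly_lap {N : ℕ} (G : SimpleGraph (Fin (N + 1))) (v : Equiv.Perm (Fin (N + 1)))
    (b : ℕ → Bool) (h : ∀ i j : Fin (N + 1), i < j → (G.Adj (v i) (v j) ↔ b j = true)) :
    (lap G).charpoly.roots = 0 ::ₘ spec0 b N := by
  have h1 := lap_eq G v b h
  have h2 : (lap G).charpoly = (lapF b (N + 1)).charpoly := by
    rw [← h1]
    exact (Matrix.charpoly_reindex v.symm (lap G)).symm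
  rw [h2, charpoly_spec]
  have h3 : (X : ℝ[X]) * ((spec0 b N).map (fun a => X - C a)).prod =
      ((0 ::ₘ spec0 b N).map (fun a => X - C a)).prod := by
    simp
  rw [h3, Polynomial.roots_multiset_prod_X_sub_C]

lemma eig_multiset {n : ℕ} (G : SimpleGraph (Fin n)) :
    (univ.val.map (lap_herm G).eigenvalues) = (lap G).charpoly.roots := by
  rw [(lap_herm G).roots_charpoly_eq_eigenvalues]
  rfl

lemma edges_eq {N : ℕ} (G : SimpleGraph (Fin (N + 1))) (v : Equiv.Perm (Fin (N + 1)))
    (b : ℕ → Bool) (h : ∀ i j : Fin (N + 1), i < j → (G.Adj (v i) (v j) ↔ b j = true)) :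
    G.edgeSet.ncard = mm b N := by
  classical
  have h1 : (lap G).trace = 2 * (G.edgeSet.ncard : ℝ) := by
    unfold lap SimpleGraph.lapMatrix SimpleGraph.degMatrix
    rw [Matrix.trace_sub, Matrix.trace_diagonal, SimpleGraph.trace_adjMatrix, sub_zero]
    have := G.sum_degrees_eq_twice_card_edges
    rw [Set.ncard_eq_toFinset_card']
    have h2 : (∑ x : Fin (N + 1), (G.degree x : ℝ)) = ((∑ x, G.degree x : ℕ) : ℝ) := by
      push_cast; rfl
    rw [h2, this]
    push_cast
    rfl
  have h2 : (lap G).trace = (univ.val.map (lap_herm G).eigenvalues).sum := by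
    rw [(lap_herm G).trace_eq_sum_eigenvalues]
    simp [Finset.sum]
  rw [eig_multiset, charpoly_lap G v b h, Multiset.sum_cons, sum_spec0, h1] at h2
  have h3 : (G.edgeSet.ncard : ℝ) = mm b N := by linarith
  exact_mod_cast h3

lemma LE_eq {N : ℕ} (G : SimpleGraph (Fin (N + 1))) (v : Equiv.Perm (Fin (N + 1)))
    (b : ℕ → Bool) (h : ∀ i j : Fin (N + 1), i < j → (G.Adj (v i) (v j) ↔ b j = true)) :
    LE G = ((0 ::ₘ spec0 b N).map
      (fun x => |x - 2 * (mm b N : ℝ) / ((N : ℝ) + 1)|)).sum := by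
  unfold LE
  rw [← charpoly_lap G v b h, ← eig_multiset, Multiset.map_map, edges_eq G v b h]
  push_cast
  rfl

/-! ### Sums of absolute deviations -/

lemma abs_sum (a : ℝ) (W : Multiset ℝ) :
    (W.map (fun x => |x - a|)).sum = 2 * ((W.filter (fun x => a < x)).sum -
      (Multiset.card (W.filter (fun x => a < x)) : ℝ) * a) - (W.sum - (Multiset.card W : ℝ) * a) := by
  induction W using Multiset.induction with
  | empty => simp
  | cons x s ih =>
    by_cases hx : a < x
    · rw [Multiset.filter_cons_of_pos _ hx]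
      simp only [Multiset.map_cons, Multiset.sum_cons, Multiset.card_cons, ih]
      rw [abs_of_pos (by linarith)]
      push_cast
      ring
    · rw [Multiset.filter_cons_of_neg _ hx]
      simp only [Multiset.map_cons, Multiset.sum_cons, Multiset.card_cons, ih]
      rw [abs_of_nonpos (by linarith)]
      push_cast
      ring

lemma le_filter (a : ℝ) (T : Multiset ℝ) : ∀ W : Multiset ℝ, T ≤ W →
    T.sum - (Multiset.card T : ℝ) * a ≤ (W.filter (fun x => a < x)).sum -
      (Multiset.card (W.filter (fun x => a < x)) : ℝ) * a := by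
  have key : ∀ W : Multiset ℝ, 0 ≤ (W.filter (fun x => a < x)).sum -
      (Multiset.card (W.filter (fun x => a < x)) : ℝ) * a := by
    intro W
    induction W using Multiset.induction with
    | empty => simp
    | cons x s ih =>
      by_cases hx : a < x
      · rw [Multiset.filter_cons_of_pos _ hx]
        simp only [Multiset.sum_cons, Multiset.card_cons]
        push_cast
        linarith
      · rw [Multiset.filter_cons_of_neg _ hx]
        exact ih
  have key2 : ∀ T : Multiset ℝ, T.sum - (Multiset.card T : ℝ) * a ≤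
      (T.filter (fun x => a < x)).sum - (Multiset.card (T.filter (fun x => a < x)) : ℝ) * a := by
    intro T
    induction T using Multiset.induction with
    | empty => simp
    | cons x s ih =>
      by_cases hx : a < x
      · rw [Multiset.filter_cons_of_pos _ hx]
        simp only [Multiset.sum_cons, Multiset.card_cons]
        push_cast
        linarith
      · rw [Multiset.filter_cons_of_neg _ hx]
        simp only [Multiset.sum_cons, Multiset.card_cons]
        push_cast
        linarith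
  intro W hW
  obtain ⟨U, rfl⟩ := Multiset.le_iff_exists_add.mp hW
  rw [Multiset.filter_add, Multiset.sum_add, Multiset.card_add]
  have h1 := key U
  have h2 := key2 T
  push_cast
  linarith

lemma sum_ge_card (U : Multiset ℝ) (h : ∀ x ∈ U, 1 ≤ x) : (Multiset.card U : ℝ) ≤ U.sum := by
  induction U using Multiset.induction with
  | empty => simp
  | cons x s ih =>
    simp only [Multiset.sum_cons, Multiset.card_cons]
    have h1 := h x (Multiset.mem_cons_self x s)
    have h2 := ih (fun y hy => h y (Multiset.mem_cons_of_mem hy))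
    push_cast
    linarith

/-! ### Upper bound -/

lemma mm_ge (b : ℕ → Bool) (N : ℕ) (h : b (N + 1) = true) : N + 1 ≤ mm b (N + 1) := by
  simp [mm, h]

lemma upper_spec (b : ℕ → Bool) (N : ℕ) (hb : b (N + 1) = true) :
    ∃ k, 1 ≤ k ∧ k * (k + 1) ≤ 2 * mm b (N + 1) ∧
      ((0 ::ₘ spec0 b (N + 1)).map
      (fun x => |x - 2 * (mm b (N + 1) : ℝ) / (((N + 1 : ℕ) : ℝ) + 1)|)).sum
        ≤ 2 * P (mm b (N + 1)) k := by
  set m := mm b (N + 1) with hm
  set a : ℝ := 2 * (m : ℝ) / (((N + 1 : ℕ) : ℝ) + 1) with ha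
  have hNpos : (0 : ℝ) < ((N + 1 : ℕ) : ℝ) + 1 := by positivity
  have ha0 : 0 ≤ a := by positivity
  have hmN : N + 1 ≤ m := mm_ge b N hb
  have hmR : ((N + 1 : ℕ) : ℝ) ≤ m := by exact_mod_cast hmN
  set S := spec0 b (N + 1) with hS
  rw [abs_sum]
  have h0 : ((0 ::ₘ S).sum - (Multiset.card (0 ::ₘ S) : ℝ) * a) = 0 := by
    rw [Multiset.sum_cons, Multiset.card_cons, hS, card_spec0, sum_spec0, ← hm, ha]
    push_cast
    field_simp
    ring
  rw [h0, sub_zero, Multiset.filter_cons_of_neg _ (by simpa using ha0)]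
  set T := S.filter (fun x => a < x) with hT
  have hTS : T ≤ S := Multiset.filter_le _ _
  have hcard : Multiset.card T ≤ N + 1 := by
    have := Multiset.card_le_card hTS
    rwa [hS, card_spec0] at this
  have hB1 := brouwer b (N + 1) T hTS
  rw [← hm] at hB1
  have hB2 : T.sum ≤ 2 * m + Multiset.card T - ((N + 1 : ℕ) : ℝ) := by
    obtain ⟨U, hU⟩ := Multiset.le_iff_exists_add.mp hTS
    have h1 : ∀ x ∈ U, 1 ≤ x := by
      intro x hx
      apply one_le_spec0 b N hb
      rw [← hS, hU]
      exact Multiset.mem_add.mpr (Or.inr hx)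
    have h2 := sum_ge_card U h1
    have h3 : S.sum = T.sum + U.sum := by rw [hU, Multiset.sum_add]
    have h4 : (Multiset.card S : ℝ) = Multiset.card T + Multiset.card U := by
      rw [hU, Multiset.card_add]; push_cast; rfl
    rw [hS, sum_spec0, ← hm] at h3
    rw [hS, card_spec0] at h4
    linarith
  have haT : (Multiset.card T : ℝ) * a =
      2 * m * (Multiset.card T : ℝ) / ((N + 1 + 1 : ℕ) : ℝ) := by
    rw [ha]
    push_cast
    ring
  rcases Nat.eq_zero_or_pos (Multiset.card T) with hz | hpos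
  · -- no eigenvalue above the mean
    refine ⟨1, le_rfl, by omega, ?_⟩
    have hT0 : T = 0 := Multiset.card_eq_zero.mp hz
    rw [hT0]
    simp only [Multiset.sum_zero, Multiset.card_zero]
    unfold P
    have hmpos : (1 : ℝ) ≤ m := by
      have : 1 ≤ m := by omega
      exact_mod_cast this
    have h1 : 2 * (m : ℝ) * (1 : ℕ) / (m + 1 - (1 : ℕ) * ((1 : ℕ) - 1) / 2) ≤ 2 := by
      push_cast
      rw [div_le_iff₀ (by linarith)]
      linarith
    push_cast at h1 ⊢
    linarith
  · obtain ⟨k, hk1, hk2, hk3⟩ := main_ineq (N + 1 + 1) m (Multiset.card T)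
      (T.sum - (Multiset.card T : ℝ) * a) hpos (by omega) (by omega)
      (by rw [haT]; linarith) (by rw [haT]; push_cast at hB2 ⊢; linarith)
    exact ⟨k, hk1, hk2, by linarith⟩

lemma upper {m : ℕ} (hm : 1 ≤ m) {x : ℝ} (hx : x ∈ values m) :
    ∃ k, 1 ≤ k ∧ k * (k + 1) ≤ 2 * m ∧ x ≤ 2 * P m k := by
  obtain ⟨n, G, hconn, ⟨v, b, hb⟩, hedge, rfl⟩ := hx
  obtain ⟨N, rfl⟩ : ∃ N, n = N + 1 := by
    obtain ⟨w⟩ := hconn.nonempty
    exact ⟨n - 1, by have := w.2; omega⟩
  let b' : ℕ → Bool := fun j => if hj : j < N + 1 then b ⟨j, hj⟩ else false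
  have hb' : ∀ i j : Fin (N + 1), i < j → (G.Adj (v i) (v j) ↔ b' j = true) := by
    intro i j hij
    rw [hb i j hij]
    have : (j : ℕ) < N + 1 := j.2
    simp only [b', dif_pos this]
  have he := edges_eq G v b' hb'
  rw [hedge] at he
  rcases Nat.eq_zero_or_pos N with hN | hN
  · subst hN
    simp [mm] at he
    omega
  obtain ⟨M, rfl⟩ : ∃ M, N = M + 1 := ⟨N - 1, by omega⟩
  have hlast : b' (M + 1) = true := by
    by_contra hcon
    -- the last vertex is isolated
    have hiso : ∀ w, ¬ G.Adj w (v (Fin.last (M + 1))) := by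
      intro w hw
      obtain ⟨i, rfl⟩ := v.surjective w
      have hne : i ≠ Fin.last (M + 1) := fun h => hw.ne (by rw [h])
      have hlt : i < Fin.last (M + 1) := lt_of_le_of_ne (Fin.le_last i) hne
      have := (hb' i _ hlt).mp hw
      rw [Fin.val_last] at this
      exact hcon this
    have hne : (v (Fin.last (M + 1))) ≠ v 0 := by
      intro h
      have := v.injective h
      have h2 := congrArg Fin.val this
      simp at h2
    obtain ⟨p⟩ := hconn.preconnected (v 0) (v (Fin.last (M + 1)))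
    have hpos : ¬ p.Nil := SimpleGraph.Walk.not_nil_of_ne hne.symm
    exact hiso _ (p.adj_penultimate hpos)
  obtain ⟨k, hk1, hk2, hk3⟩ := upper_spec b' M hlast
  rw [← he] at hk2 hk3
  refine ⟨k, hk1, hk2, ?_⟩
  rw [LE_eq G v b' hb', ← he]
  exact hk3

/-! ### Pineapples -/

/-- bits of the pineapple on `N + 1` vertices -/
def pb (k N : ℕ) (j : ℕ) : Bool := decide ((1 ≤ j ∧ j < k) ∨ j = N)

/-- The pineapple: the clique on `0, …, k - 1` and `N`, and `k, …, N - 1` joined to `N` only. -/
def pine (k N : ℕ) : SimpleGraph (Fin (N + 1)) where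
  Adj i j := i ≠ j ∧ pb k N (max (i : ℕ) j) = true
  symm := ⟨fun i j h => ⟨h.1.symm, by rw [max_comm]; exact h.2⟩⟩
  loopless := ⟨fun i h => h.1 rfl⟩

lemma pine_thr (k N : ℕ) (i j : Fin (N + 1)) (h : i < j) :
    (pine k N).Adj ((Equiv.refl (Fin (N + 1))) i) ((Equiv.refl (Fin (N + 1))) j) ↔
      pb k N j = true := by
  have h1 : (i : ℕ) < j := by exact_mod_cast h
  have h2 : max (i : ℕ) (j : ℕ) = j := max_eq_right h1.le
  unfold pine
  simp only [Equiv.refl_apply, h2]
  constructor
  · exact fun h => h.2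
  · exact fun h3 => ⟨h.ne, h3⟩

lemma pine_connected (k N : ℕ) : (pine k N).Connected := by
  have hadj : ∀ i : Fin (N + 1), i ≠ Fin.last N → (pine k N).Adj i (Fin.last N) := by
    intro i hi
    refine ⟨hi, ?_⟩
    have : (i : ℕ) ≤ N := by have := i.2; omega
    simp only [Fin.val_last, max_eq_right this]
    simp [pb]
  have hr : ∀ i : Fin (N + 1), (pine k N).Reachable i (Fin.last N) := by
    intro i
    by_cases hi : i = Fin.last N
    · rw [hi]
    · exact (hadj i hi).reachable
  haveI : Nonempty (Fin (N + 1)) := ⟨0⟩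
  exact ⟨fun i j => (hr i).trans (hr j).symm⟩

lemma mm_pine_lt (k N : ℕ) : ∀ n, n < N → 2 * mm (pb k N) n =
    if n < k then n * (n + 1) else k * (k - 1) := by
  intro n
  induction n with
  | zero =>
    intro _
    rcases Nat.eq_zero_or_pos k with h | h
    · subst h; simp [mm]
    · simp [mm, h]
  | succ n ih =>
    intro hn
    have ih' := ih (by omega)
    simp only [mm]
    by_cases h : n + 1 < k
    · have h1 : pb k N (n + 1) = true := by simp [pb, h]
      rw [h1, if_pos rfl, if_pos h, mul_add, ih', if_pos (by omega)]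
      ring
    · have h1 : pb k N (n + 1) = false := by
        simp only [pb, decide_eq_false_iff_not, not_or, not_and, not_lt]
        exact ⟨fun _ => by omega, by omega⟩
      rw [h1, if_neg h]
      simp only [Bool.false_eq_true, if_false, add_zero, ih']
      by_cases h2 : n < k
      · have : k = n + 1 := by omega
        subst this
        rw [if_pos h2]
        simp
        ring
      · rw [if_neg h2]

lemma mm_pine (k N : ℕ) (hk : 1 ≤ k) (hkN : k ≤ N) : 2 * mm (pb k N) N = 2 * N + k * (k - 1) := by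
  obtain ⟨M, rfl⟩ : ∃ M, N = M + 1 := ⟨N - 1, by omega⟩
  have h1 := mm_pine_lt k (M + 1) M (by omega)
  have h2 : pb k (M + 1) (M + 1) = true := by simp [pb]
  simp only [mm, h2, if_true]
  rw [mul_add, h1]
  by_cases h : M < k
  · have : k = M + 1 := by omega
    subst this
    rw [if_pos h]
    simp
    ring
  · rw [if_neg h]
    ring

lemma spec_pine_lt (k N : ℕ) (hk : 1 ≤ k) : ∀ n, n < N →
    (n < k → spec0 (pb k N) n = Multiset.replicate n ((n : ℝ) + 1)) ∧
    (k ≤ n + 1 → Multiset.replicate (k - 1) (k : ℝ) ≤ spec0 (pb k N) n) := by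
  intro n
  induction n with
  | zero =>
    intro _
    refine ⟨fun _ => by simp [spec0], fun h => ?_⟩
    have : k = 1 := by omega
    subst this
    simp
  | succ n ih =>
    intro hn
    obtain ⟨ih1, ih2⟩ := ih (by omega)
    have hA : n + 1 < k → spec0 (pb k N) (n + 1) =
        Multiset.replicate (n + 1) (((n + 1 : ℕ) : ℝ) + 1) := by
      intro h
      have h1 : pb k N (n + 1) = true := by simp [pb, h]
      simp only [spec0, h1, if_true]
      rw [ih1 (by omega), Multiset.map_replicate, Multiset.replicate_succ]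
      congr 1
      · push_cast; ring
      · congr 1
        push_cast; ring
    refine ⟨hA, fun h => ?_⟩
    by_cases h2 : n + 1 < k
    · have h3 : k = n + 2 := by omega
      rw [hA h2, h3]
      have : n + 2 - 1 = n + 1 := by omega
      rw [this]
      push_cast
      have e : (n : ℝ) + 2 = n + 1 + 1 := by ring
      rw [e]
    · have h1 : pb k N (n + 1) = false := by
        simp only [pb, decide_eq_false_iff_not, not_or, not_and, not_lt]
        exact ⟨fun _ => by omega, by omega⟩
      simp only [spec0, h1, Bool.false_eq_true, if_false]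
      exact (ih2 (by omega)).trans (Multiset.le_cons_self _ _)

lemma spec_pine (k N : ℕ) (hk : 1 ≤ k) (hkN : k ≤ N) :
    ((N : ℝ) + 1) ::ₘ Multiset.replicate (k - 1) ((k : ℝ) + 1) ≤ spec0 (pb k N) N := by
  obtain ⟨M, rfl⟩ : ∃ M, N = M + 1 := ⟨N - 1, by omega⟩
  have h1 := (spec_pine_lt k (M + 1) hk M (by omega)).2 (by omega)
  have h2 : pb k (M + 1) (M + 1) = true := by simp [pb]
  simp only [spec0, h2, if_true]
  have h3 := Multiset.map_le_map (f := fun x : ℝ => x + 1) h1
  rw [Multiset.map_replicate] at h3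
  have e : ((M + 1 : ℕ) : ℝ) + 1 = (M : ℝ) + 2 := by push_cast; ring
  rw [e]
  exact (Multiset.cons_le_cons_iff _).mpr h3

lemma pine_value {m k : ℕ} (hk : 1 ≤ k) (hkm : k * (k + 1) ≤ 2 * m) :
    (pine k (m - k * (k - 1) / 2)).edgeSet.ncard = m ∧
      LE (pine k (m - k * (k - 1) / 2)) ∈ values m ∧
      2 * P m k ≤ LE (pine k (m - k * (k - 1) / 2)) := by
  -- N = m - k (k - 1) / 2
  obtain ⟨d, hd⟩ : ∃ d, k * (k - 1) = 2 * d := by
    have := Nat.even_mul_pred_self k
    obtain ⟨d, hd⟩ := this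
    exact ⟨d, by omega⟩
  obtain ⟨K, rfl⟩ : ∃ K, k = K + 1 := ⟨k - 1, by omega⟩
  have hd' : (K + 1) * K = 2 * d := by simpa using hd
  have hN : d + (K + 1) ≤ m := by nlinarith
  have hdiv : (K + 1) * (K + 1 - 1) / 2 = d := by omega
  rw [hdiv]
  set N := m - d with hNdef
  have hkN : K + 1 ≤ N := by omega
  have hmm : mm (pb (K + 1) N) N = m := by
    have := mm_pine (K + 1) N hk hkN
    rw [hd] at this
    omega
  have hed : (pine (K + 1) N).edgeSet.ncard = m := by
    rw [edges_eq _ (Equiv.refl _) (pb (K + 1) N) (fun i j h => pine_thr _ _ i j h), hmm]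
  refine ⟨hed, ⟨N + 1, pine (K + 1) N, pine_connected _ _,
    ⟨Equiv.refl _, fun j => pb (K + 1) N j, fun i j h => pine_thr _ _ i j h⟩, hed, rfl⟩, ?_⟩
  · rw [LE_eq _ (Equiv.refl _) (pb (K + 1) N) (fun i j h => pine_thr _ _ i j h), hmm, abs_sum]
    set a : ℝ := 2 * (m : ℝ) / ((N : ℝ) + 1) with ha
    have hNR : (N : ℝ) = m - d := by
      rw [hNdef]
      push_cast [Nat.cast_sub (show d ≤ m by omega)]
      ring
    have hdR : ((K : ℝ) + 1) * K = 2 * d := by exact_mod_cast hd'
    have hNpos : (0 : ℝ) < (N : ℝ) + 1 := by positivity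
    have h0 : ((0 ::ₘ spec0 (pb (K + 1) N) N).sum -
        (Multiset.card (0 ::ₘ spec0 (pb (K + 1) N) N) : ℝ) * a) = 0 := by
      rw [Multiset.sum_cons, Multiset.card_cons, card_spec0, sum_spec0, hmm, ha]
      push_cast
      field_simp
      ring
    rw [h0, sub_zero]
    have h1 := (spec_pine (K + 1) N hk hkN).trans (Multiset.le_cons_self _ 0)
    have h2 := le_filter a _ _ h1
    refine mul_le_mul_of_nonneg_left (le_trans ?_ h2) (by norm_num)
    rw [Multiset.sum_cons, Multiset.card_cons, Multiset.sum_replicate, Multiset.card_replicate]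
    unfold P
    have e1 : (m : ℝ) + 1 - ((K + 1 : ℕ) : ℝ) * (((K + 1 : ℕ) : ℝ) - 1) / 2 = N + 1 := by
      rw [hNR]
      push_cast
      nlinarith
    rw [e1, ha]
    push_cast
    have e2 : ((K : ℝ) + 1) * (2 * m / (N + 1)) = 2 * m * (K + 1) / (N + 1) := by ring
    rw [e2, hNR]
    simp only [nsmul_eq_mul]
    nlinarith

/-! ### The maximising index -/

/-- `Q m k ≥ 0` if and only if `P m (k + 1) ≥ P m k` (for `(k + 1) (k + 2) ≤ 2 m`). With
`n = m + 1 - k (k - 1) / 2` it is `(k - 1) n² - (4 k² - 2) n + 2 k² + k³ - k⁴`. -/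
noncomputable def Q (m k : ℕ) : ℝ :=
  ((k : ℝ) - 1) * ((m : ℝ) + 1 - k * (k - 1) / 2) ^ 2
    - (4 * (k : ℝ) ^ 2 - 2) * ((m : ℝ) + 1 - k * (k - 1) / 2)
    + 2 * (k : ℝ) ^ 2 + (k : ℝ) ^ 3 - (k : ℝ) ^ 4

lemma P_step {m k : ℕ} (hkm : (k + 1) * (k + 2) ≤ 2 * m) :
    P m (k + 1) - P m k = Q m k / (((m : ℝ) + 1 - k * (k - 1) / 2) *
      ((m : ℝ) + 1 - k * (k - 1) / 2 - k)) ∧ 0 < ((m : ℝ) + 1 - k * (k - 1) / 2) *
      ((m : ℝ) + 1 - k * (k - 1) / 2 - k) := by
  have hR : ((k : ℝ) + 1) * (k + 2) ≤ 2 * m := by exact_mod_cast hkm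
  have hk0 : (0 : ℝ) ≤ k := Nat.cast_nonneg k
  set n : ℝ := (m : ℝ) + 1 - k * (k - 1) / 2 with hn
  have hnk : 2 * (k : ℝ) + 2 ≤ n := by rw [hn]; nlinarith
  have h1 : 0 < n := by linarith
  have h2 : 0 < n - k := by linarith
  have hm : (m : ℝ) = n - 1 + k * (k - 1) / 2 := by rw [hn]; ring
  refine ⟨?_, mul_pos h1 h2⟩
  unfold P Q
  rw [← hn]
  push_cast
  have e1 : (m : ℝ) + 1 - (k + 1) * (k + 1 - 1) / 2 = n - k := by rw [hn]; ring
  rw [e1, hm]
  field_simp
  ring

lemma Q_neg_step {m k : ℕ} (hk : 2 ≤ k) (hkm : (k + 1) * (k + 2) ≤ 2 * m) (h : Q m k < 0) :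
    Q m (k + 1) < 0 := by
  have hR : ((k : ℝ) + 1) * (k + 2) ≤ 2 * m := by exact_mod_cast hkm
  have hk0 : (2 : ℝ) ≤ k := by exact_mod_cast hk
  unfold Q at h ⊢
  set n : ℝ := (m : ℝ) + 1 - k * (k - 1) / 2 with hn
  have hnk : 2 * (k : ℝ) + 2 ≤ n := by rw [hn]; nlinarith
  push_cast
  have e1 : (m : ℝ) + 1 - (k + 1) * (k + 1 - 1) / 2 = n - k := by rw [hn]; ring
  rw [e1]
  set K : ℝ := (k : ℝ) with hK
  have h3 : (K - 1) * ((K + 1 - 1) * (n - K) ^ 2 - (4 * (K + 1) ^ 2 - 2) * (n - K)
      + 2 * (K + 1) ^ 2 + (K + 1) ^ 3 - (K + 1) ^ 4)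
      = K * ((K - 1) * n ^ 2 - (4 * K ^ 2 - 2) * n + 2 * K ^ 2 + K ^ 3 - K ^ 4)
        - ((2 * K ^ 3 + 2 * K ^ 2 - 4 * K - 2) * (n - (2 * K + 2))
        + (2 * K ^ 4 + 5 * K ^ 3 - 2 * K ^ 2 - 9 * K - 2)) := by ring
  have h4 : 0 ≤ (2 * K ^ 3 + 2 * K ^ 2 - 4 * K - 2) * (n - (2 * K + 2)) := by
    apply mul_nonneg _ (by linarith)
    nlinarith [mul_nonneg (by linarith : (0 : ℝ) ≤ K - 2) (by positivity : (0 : ℝ) ≤ K ^ 2)]
  have h5 : 0 < 2 * K ^ 4 + 5 * K ^ 3 - 2 * K ^ 2 - 9 * K - 2 := by
    have a1 : 0 ≤ K ^ 3 * (K - 2) := mul_nonneg (by positivity) (by linarith)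
    have a2 : 0 ≤ K ^ 2 * (K - 2) := mul_nonneg (by positivity) (by linarith)
    have a3 : 0 ≤ K * (K - 2) := mul_nonneg (by positivity) (by linarith)
    nlinarith
  have h6 : K * ((K - 1) * n ^ 2 - (4 * K ^ 2 - 2) * n + 2 * K ^ 2 + K ^ 3 - K ^ 4) < 0 :=
    mul_neg_of_pos_of_neg (by linarith) h
  have h7 : (K - 1) * ((K + 1 - 1) * (n - K) ^ 2 - (4 * (K + 1) ^ 2 - 2) * (n - K)
      + 2 * (K + 1) ^ 2 + (K + 1) ^ 3 - (K + 1) ^ 4) < 0 := by
    rw [h3]; linarith
  by_contra hcon
  push Not at hcon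
  have := mul_nonneg (by linarith : (0 : ℝ) ≤ K - 1) hcon
  linarith

lemma P_le_of_Q {m k : ℕ} (hk : 2 ≤ k) (hkm : k * (k + 1) ≤ 2 * m)
    (h1 : ∀ j, 2 ≤ j → j < k → 0 ≤ Q m j)
    (h2 : Q m k < 0 ∨ 2 * m < (k + 1) * (k + 2)) :
    ∀ j, 2 ≤ j → j * (j + 1) ≤ 2 * m → P m j ≤ P m k := by
  have up : ∀ d j, 2 ≤ j → j + d = k → P m j ≤ P m k := by
    intro d
    induction d with
    | zero =>
      intro j _ hj
      rw [← hj]; simp
    | succ d ih =>
      intro j hj2 hj
      have h3 := ih (j + 1) (by omega) (by omega)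
      have h4 : (j + 1) * (j + 2) ≤ 2 * m := by
        have : j + 1 ≤ k := by omega
        nlinarith
      obtain ⟨h5, h6⟩ := P_step h4
      have h7 := h1 j hj2 (by omega)
      have h8 : 0 ≤ P m (j + 1) - P m j := by rw [h5]; exact div_nonneg h7 h6.le
      linarith
  have down : ∀ d, (k + d) * (k + d + 1) ≤ 2 * m →
      P m (k + d) ≤ P m k ∧ (2 * m < (k + 1) * (k + 2) ∨ Q m (k + d) < 0) := by
    intro d
    induction d with
    | zero =>
      intro _
      exact ⟨le_rfl, h2.symm⟩
    | succ d ih =>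
      intro hd
      have h3 : (k + d) * (k + d + 1) ≤ 2 * m := by nlinarith
      obtain ⟨h4, h5⟩ := ih h3
      have h6 : (k + d + 1) * (k + d + 2) ≤ 2 * m := by
        have : (k + (d + 1)) * (k + (d + 1) + 1) = (k + d + 1) * (k + d + 2) := by ring
        omega
      have h7 : ¬ 2 * m < (k + 1) * (k + 2) := by
        push Not
        nlinarith
      have h8 : Q m (k + d) < 0 := h5.resolve_left h7
      obtain ⟨h9, h10⟩ := P_step h6
      have h11 : P m (k + d + 1) - P m (k + d) ≤ 0 := by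
        rw [h9]; exact div_nonpos_of_nonpos_of_nonneg h8.le h10.le
      have h12 : Q m (k + d + 1) < 0 := Q_neg_step (k := k + d) (by omega) h6 h8
      refine ⟨?_, Or.inr h12⟩
      have : k + (d + 1) = k + d + 1 := by ring
      rw [this]
      linarith
  intro j hj hjm
  rcases le_total j k with h | h
  · exact up (k - j) j hj (by omega)
  · obtain ⟨d, rfl⟩ : ∃ d, j = k + d := ⟨j - k, by omega⟩
    exact (down d hjm).1

/-- For every `m ≥ 1`, the maximum Laplacian energy of a connected threshold graph with `m` edges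
is `2 · max_k (m + k (k + 1) / 2 - 2 m k / (m + 1 - k (k - 1) / 2))`, the maximum being over the
integers `k ≥ 1` with `k (k + 1) ≤ 2 m`; it is attained, for a maximising `k`, by the pineapple
with `m` edges and clique number `k + 1`. For `m ≥ 3` the maximum over `k` is attained at `k = 1`
or at the least `k ≥ 2` with `Q m k < 0` or `(k + 1) (k + 2) > 2 m`. -/
theorem result (m : ℕ) (hm : 1 ≤ m) :
    (∃ k : ℕ, (1 ≤ k ∧ k * (k + 1) ≤ 2 * m) ∧
      (∀ j : ℕ, 1 ≤ j → j * (j + 1) ≤ 2 * m → P m j ≤ P m k) ∧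
      IsGreatest (values m) (2 * P m k) ∧ Lthr m = 2 * P m k ∧
      (pine k (m - k * (k - 1) / 2)).edgeSet.ncard = m ∧
      LE (pine k (m - k * (k - 1) / 2)) = Lthr m) ∧
    (m < 3 → Lthr m = 2 * P m 1) ∧
    (∀ k : ℕ, 2 ≤ k → k * (k + 1) ≤ 2 * m → (∀ j, 2 ≤ j → j < k → 0 ≤ Q m j) →
      (Q m k < 0 ∨ 2 * m < (k + 1) * (k + 2)) → Lthr m = 2 * max (P m 1) (P m k)) := by
  classical
  set F : Finset ℕ := (Finset.range (2 * m + 1)).filter (fun k => 1 ≤ k ∧ k * (k + 1) ≤ 2 * m)
    with hF
  have hmem : ∀ j, j ∈ F ↔ 1 ≤ j ∧ j * (j + 1) ≤ 2 * m := by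
    intro j
    rw [hF, Finset.mem_filter, Finset.mem_range]
    constructor
    · exact fun h => h.2
    · intro h
      exact ⟨by nlinarith [h.1, h.2], h⟩
  have hne : F.Nonempty := ⟨1, (hmem 1).mpr ⟨le_rfl, by omega⟩⟩
  obtain ⟨k, hkF, hkmax⟩ := Finset.exists_max_image F (fun j => P m j) hne
  have hk := (hmem k).mp hkF
  obtain ⟨hp1, hp2, hp3⟩ := pine_value hk.1 hk.2
  have hub : ∀ x ∈ values m, x ≤ 2 * P m k := by
    intro x hx
    obtain ⟨j, hj1, hj2, hj3⟩ := upper hm hx
    have := hkmax j ((hmem j).mpr ⟨hj1, hj2⟩)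
    linarith
  have heq : LE (pine k (m - k * (k - 1) / 2)) = 2 * P m k := le_antisymm (hub _ hp2) hp3
  have hgr : IsGreatest (values m) (2 * P m k) := ⟨heq ▸ hp2, hub⟩
  have hL : Lthr m = 2 * P m k := hgr.csSup_eq
  have hmax : ∀ j : ℕ, 1 ≤ j → j * (j + 1) ≤ 2 * m → P m j ≤ P m k :=
    fun j hj1 hj2 => hkmax j ((hmem j).mpr ⟨hj1, hj2⟩)
  refine ⟨⟨k, hk, hmax, hgr, hL, hp1, by rw [hL]; exact heq⟩, ?_, ?_⟩
  · intro h3
    have hk1 : k = 1 := by
      obtain ⟨a, b⟩ := hk
      by_contra hne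
      have : 2 ≤ k := by omega
      nlinarith
    rw [hL, hk1]
  · intro l hl hlm hq1 hq2
    have h3 := P_le_of_Q hl hlm hq1 hq2
    rw [hL]
    congr 1
    apply le_antisymm
    · rcases Nat.lt_or_ge k 2 with h4 | h4
      · have : k = 1 := by omega
        rw [this]
        exact le_max_left _ _
      · exact (h3 k h4 hk.2).trans (le_max_right _ _)
    · exact max_le (hmax 1 le_rfl (by omega)) (hmax l (by omega) hlm)

end Pool.Agent.Results.MP_2d204e_co.ThresholdMax
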